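import Pool.Agent.H60.CM.Basic

/-! Module JAC: the Jacobi equation (pointwise algebra). -/

set_option autoImplicit false

open Set Function MeasureTheory Filter Topology
open scoped Manifold ContDiff Matrix
open Pool.Agent.H60.CM

namespace Pool.Agent.H35.CM

theorem sum_brk (X0 X1 n f0 f1 g0 g1 : V3) :
    ∑ i : Fin 3, brk X0 X1 n (f0 i) (f1 i) (g0 i) (g1 i) =
      (f0 ⬝ᵥ g1 - f1 ⬝ᵥ g0) / ((X0 ⨯₃ X1) ⬝ᵥ n) := by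
  unfold brk
  rw [← Finset.sum_div]
  congr 1
  rw [Finset.sum_sub_distrib]
  rfl

theorem sum_bil (X0 X1 f0 f1 : V3) :
    ∑ i : Fin 3, bil X0 X1 (f0 i) (f1 i) (f0 i) (f1 i) =
      ((f0 ⬝ᵥ f0) * (X1 ⬝ᵥ X1) - 2 * (f0 ⬝ᵥ f1) * (X0 ⬝ᵥ X1) + (f1 ⬝ᵥ f1) * (X0 ⬝ᵥ X0)) /
        ((X0 ⨯₃ X1) ⬝ᵥ (X0 ⨯₃ X1)) := by
  unfold bil
  rw [← Finset.sum_div]
  congr 1
  simp only [dotProduct, Fin.sum_univ_three, Pi.sub_apply, Pi.smul_apply, smul_eq_mul]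
  ring

/-- the numerator of the first term -/
theorem num1 (b k X Z n m : V3) :
    ((b ⨯₃ X) ⨯₃ n + k ⨯₃ m) ⬝ᵥ Z =
      (b ⬝ᵥ n) * (X ⬝ᵥ Z) - (b ⬝ᵥ Z) * (n ⬝ᵥ X) + k ⬝ᵥ (m ⨯₃ Z) := by
  simp only [cross_apply, dotProduct, Fin.sum_univ_three, Pi.add_apply, Matrix.cons_val_zero,
    Matrix.cons_val_one, Matrix.cons_val]
  ring

theorem trip (n X0 X1 : V3) (i : Fin 3) :
    (n ⬝ᵥ n) * (X0 ⨯₃ X1) i = ((X0 ⨯₃ X1) ⬝ᵥ n) * n i -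
      (n ⨯₃ ((n ⬝ᵥ X1) • X0 - (n ⬝ᵥ X0) • X1)) i := by
  fin_cases i <;>
  simp [cross_apply, dotProduct, Fin.sum_univ_three] <;> ring

theorem cramer (X0 X1 n v : V3) (i : Fin 3) :
    ((X0 ⨯₃ X1) ⬝ᵥ n) * v i = ((v ⨯₃ X1) ⬝ᵥ n) * X0 i + ((X0 ⨯₃ v) ⬝ᵥ n) * X1 i +
      ((X0 ⨯₃ X1) ⬝ᵥ v) * n i := by
  fin_cases i <;>
  simp [cross_apply, dotProduct, Fin.sum_univ_three] <;> ring

theorem pf_JAC : T_JAC := by
  intro X0 X1 n n0 n1 H F k b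
  obtain ⟨himm, hunit, hx0, hx1, hn0, hn1, hsym, hcmc⟩ := F
  obtain ⟨w, hw⟩ : ∃ w, w = (X0 ⨯₃ X1) ⬝ᵥ n := ⟨_, rfl⟩
  have hc : X0 ⨯₃ X1 = w • n := by
    funext i
    have h := trip n X0 X1 i
    rw [hunit, hx0, hx1, zero_smul, zero_smul, sub_zero, one_mul, ← hw] at h
    rw [h, Pi.smul_apply, smul_eq_mul, map_zero]
    simp
  have hw0 : w ≠ 0 := by
    intro h
    rw [h, zero_smul] at hc
    exact himm hc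
  have hcc : (X0 ⨯₃ X1) ⬝ᵥ (X0 ⨯₃ X1) = w ^ 2 := by
    rw [hc, smul_dotProduct, dotProduct_smul, hunit, smul_eq_mul, smul_eq_mul]
    ring
  have hdec : ∀ v : V3, n ⬝ᵥ v = 0 → ∃ p q : ℝ, v = p • X0 + q • X1 := by
    intro v hv
    refine ⟨((v ⨯₃ X1) ⬝ᵥ n) / w, ((X0 ⨯₃ v) ⬝ᵥ n) / w, ?_⟩
    funext i
    have h := cramer X0 X1 n v i
    have h2 : (X0 ⨯₃ X1) ⬝ᵥ v = 0 := by
      rw [hc, smul_dotProduct, hv, smul_zero]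
    rw [h2, zero_mul, add_zero, ← hw] at h
    simp only [Pi.add_apply, Pi.smul_apply, smul_eq_mul]
    field_simp
    linarith
  obtain ⟨p, q, hp⟩ := hdec n0 hn0
  obtain ⟨s, t, hs⟩ := hdec n1 hn1
  -- the trace
  have htr : p + t = -2 * H := by
    have h : (n0 ⨯₃ X1 + X0 ⨯₃ n1) = (p + t) • (X0 ⨯₃ X1) := by
      rw [hp, hs]
      funext i
      fin_cases i <;>
      simp [cross_apply] <;> ring
    rw [h, hc] at hcmc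
    have h2 := congrArg (fun v : V3 => v ⬝ᵥ n) hcmc
    simp only [smul_dotProduct, hunit, smul_eq_mul, mul_one] at h2
    exact mul_right_cancel₀ hw0 h2
  have hK : n0 ⨯₃ n1 = (p * t - q * s) • (X0 ⨯₃ X1) := by
    rw [hp, hs]
    funext i
    fin_cases i <;>
    simp [cross_apply] <;> ring
  have hg : w ^ 2 = (X0 ⬝ᵥ X0) * (X1 ⬝ᵥ X1) - (X0 ⬝ᵥ X1) ^ 2 := by
    rw [← hcc]
    simp only [cross_apply, dotProduct, Fin.sum_univ_three, Matrix.cons_val_zero,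
      Matrix.cons_val_one, Matrix.cons_val]
    ring
  have hsy : s * (X0 ⬝ᵥ X0) + t * (X0 ⬝ᵥ X1) = p * (X0 ⬝ᵥ X1) + q * (X1 ⬝ᵥ X1) := by
    rw [hp, hs] at hsym
    simp only [dotProduct_add, dotProduct_smul, smul_eq_mul] at hsym
    rw [dotProduct_comm X1 X0] at hsym
    exact hsym
  have h00 : n0 ⬝ᵥ n0 = p ^ 2 * (X0 ⬝ᵥ X0) + 2 * p * q * (X0 ⬝ᵥ X1) + q ^ 2 * (X1 ⬝ᵥ X1) := by
    rw [hp]
    simp only [dotProduct_add, dotProduct_smul, add_dotProduct, smul_dotProduct, smul_eq_mul]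
    rw [dotProduct_comm X1 X0]
    ring
  have h01 : n0 ⬝ᵥ n1 = p * s * (X0 ⬝ᵥ X0) + (p * t + q * s) * (X0 ⬝ᵥ X1) +
      q * t * (X1 ⬝ᵥ X1) := by
    rw [hp, hs]
    simp only [dotProduct_add, dotProduct_smul, add_dotProduct, smul_dotProduct, smul_eq_mul]
    rw [dotProduct_comm X1 X0]
    ring
  have h11 : n1 ⬝ᵥ n1 = s ^ 2 * (X0 ⬝ᵥ X0) + 2 * s * t * (X0 ⬝ᵥ X1) + t ^ 2 * (X1 ⬝ᵥ X1) := by
    rw [hs]
    simp only [dotProduct_add, dotProduct_smul, add_dotProduct, smul_dotProduct, smul_eq_mul]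
    rw [dotProduct_comm X1 X0]
    ring
  -- the right side
  have hR : ∑ i : Fin 3, bil X0 X1 (n0 i) (n1 i) (n0 i) (n1 i) =
      4 * H ^ 2 - 2 * (p * t - q * s) := by
    rw [sum_bil, hcc, div_eq_iff (by positivity), h00, h01, h11, hg]
    generalize X0 ⬝ᵥ X0 = g at *
    generalize X0 ⬝ᵥ X1 = e at *
    generalize X1 ⬝ᵥ X1 = j at *
    have hH : 4 * H ^ 2 = (p + t) ^ 2 := by
      rw [htr]
      ring
    rw [hH]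
    linear_combination (s * g - q * j - (p - t) * e) * hsy
  -- the left side
  have hL1 : ((-(2 * H) • ((b ⨯₃ X0) ⨯₃ n + k ⨯₃ n0)) ⬝ᵥ X1 -
      (-(2 * H) • ((b ⨯₃ X1) ⨯₃ n + k ⨯₃ n1)) ⬝ᵥ X0) = 4 * H ^ 2 * w * (k ⬝ᵥ n) := by
    rw [smul_dotProduct, smul_dotProduct, num1, num1, hx0, hx1, dotProduct_comm X1 X0]
    have h2 : k ⬝ᵥ (n0 ⨯₃ X1) - k ⬝ᵥ (n1 ⨯₃ X0) = (-2 * H) * (w * (k ⬝ᵥ n)) := by
      have h3 : n0 ⨯₃ X1 - n1 ⨯₃ X0 = (-2 * H) • (w • n) := by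
        rw [← hc, ← hcmc, ← cross_anticomm X0 n1]
        rw [sub_neg_eq_add]
      rw [← dotProduct_sub, h3, dotProduct_smul, dotProduct_smul, smul_eq_mul, smul_eq_mul]
    simp only [smul_eq_mul]
    linear_combination (-(2 * H)) * h2
  have hL2 : ((-((b ⨯₃ X0) ⨯₃ n + k ⨯₃ n0)) ⬝ᵥ n1 -
      (-((b ⨯₃ X1) ⨯₃ n + k ⨯₃ n1)) ⬝ᵥ n0) = -2 * (p * t - q * s) * w * (k ⬝ᵥ n) := by
    rw [neg_dotProduct, neg_dotProduct, num1, num1, hx0, hx1, hsym]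
    have h2 : k ⬝ᵥ (n0 ⨯₃ n1) = (p * t - q * s) * (w * (k ⬝ᵥ n)) := by
      rw [hK, hc, dotProduct_smul, dotProduct_smul, smul_eq_mul, smul_eq_mul]
    have h3 : k ⬝ᵥ (n1 ⨯₃ n0) = -(k ⬝ᵥ (n0 ⨯₃ n1)) := by
      rw [← cross_anticomm n0 n1, dotProduct_neg]
    rw [h3]
    linear_combination (-2) * h2
  rw [sum_brk X0 X1 n (-(2 * H) • ((b ⨯₃ X0) ⨯₃ n + k ⨯₃ n0))
      (-(2 * H) • ((b ⨯₃ X1) ⨯₃ n + k ⨯₃ n1)) X0 X1,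
    sum_brk X0 X1 n (-((b ⨯₃ X0) ⨯₃ n + k ⨯₃ n0)) (-((b ⨯₃ X1) ⨯₃ n + k ⨯₃ n1)) n0 n1,
    hL1, hL2, hR, ← hw]
  field_simp
  ring

end Pool.Agent.H35.CM
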